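import Mathlib

namespace Pool.Agent.H.MP_a0e599_al

open ExteriorAlgebra Finset

variable {n : ℕ}

/-- the monomial basis -/
noncomputable def x (K : Type) [Field K] (n : ℕ) :
    Module.Basis (Finset (Fin n)) K (ExteriorAlgebra K (Fin n → K)) :=
  (Pi.basisFun K (Fin n)).ExteriorAlgebra

/-- structure constants -/
noncomputable def ε (S T : Finset (Fin n)) : ℤ :=
  if h : Disjoint S T then
    ((Set.powersetCard.permOfDisjoint (s := Set.powersetCard.ofCard (rfl : S.card = S.card))
      (t := Set.powersetCard.ofCard (rfl : T.card = T.card)) h).sign : ℤˣ) else 0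

variable {K : Type} [Field K]

lemma x_mul (S T : Finset (Fin n)) : x K n S * x K n T = (ε S T : K) • x K n (S ∪ T) := by
  unfold ε
  split_ifs with h
  · have := basis_mul_of_disjoint (Pi.basisFun K (Fin n))
      (Set.powersetCard.ofCard (rfl : S.card = S.card))
      (Set.powersetCard.ofCard (rfl : T.card = T.card)) h
    rw [Set.powersetCard.coe_disjUnion, disjUnion_eq_union] at this
    rw [Int.cast_smul_eq_zsmul]
    exact this
  · have := basis_mul_of_not_disjoint (Pi.basisFun K (Fin n))
      (Set.powersetCard.ofCard (rfl : S.card = S.card))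
      (Set.powersetCard.ofCard (rfl : T.card = T.card)) h
    simpa [x] using this

lemma ε_sq {S T : Finset (Fin n)} (h : Disjoint S T) : (ε S T : K) * ε S T = 1 := by
  unfold ε
  rw [dif_pos h, ← Int.cast_mul, ← Units.val_mul, Int.units_mul_self]
  simp

lemma ε_zero {S T : Finset (Fin n)} (h : ¬ Disjoint S T) : ε S T = 0 := dif_neg h

/-- span of the monomials with a property -/
def V (K : Type) [Field K] (P : Finset (Fin n) → Prop) :
    Submodule K (ExteriorAlgebra K (Fin n → K)) := Submodule.span K (x K n '' {T | P T})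

lemma mem_V {P : Finset (Fin n) → Prop} {g : ExteriorAlgebra K (Fin n → K)} :
    g ∈ V K P ↔ ∀ T, (x K n).repr g T ≠ 0 → P T := by
  unfold V
  rw [Module.Basis.mem_span_image]
  simp [Set.subset_def]

lemma x_mem {P : Finset (Fin n) → Prop} {T : Finset (Fin n)} (h : P T) : x K n T ∈ V K P :=
  Submodule.subset_span ⟨T, h, rfl⟩

lemma map_V {P : Finset (Fin n) → Prop} {M : Type} [AddCommGroup M] [Module K M]
    (φ : ExteriorAlgebra K (Fin n → K) →ₗ[K] M) {W : Submodule K M}
    (h : ∀ T, P T → φ (x K n T) ∈ W) {g : ExteriorAlgebra K (Fin n → K)} (hg : g ∈ V K P) :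
    φ g ∈ W := by
  refine (Submodule.span_le (p := W.comap φ)).2 ?_ hg
  rintro _ ⟨T, hT, rfl⟩
  exact h T hT

lemma pow_eq (r : ℕ) : ⋀[K]^r (Fin n → K) = V K fun T => T.card = r := by
  rw [← exteriorPower.ιMulti_family_span_fixedDegree_of_span K (Pi.basisFun K (Fin n)).span_eq]
  unfold V
  congr 1
  ext y
  constructor
  · rintro ⟨S, rfl⟩
    exact ⟨S, S.2, basis_apply_powersetCard _ S⟩
  · rintro ⟨T, hT, rfl⟩
    exact ⟨Set.powersetCard.ofCard hT, (basis_apply_ofCard _ hT).symm⟩

lemma ι_comm {M : Type} [AddCommGroup M] [Module K M] (v : M) {q : ℕ} {b : ExteriorAlgebra K M}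
    (hb : b ∈ ⋀[K]^q M) : ι K v * b = (-1 : K) ^ q • (b * ι K v) := by
  induction hb using Submodule.pow_induction_on_left' with
  | algebraMap r => simp [Algebra.commutes]
  | add a b i _ _ h1 h2 => rw [mul_add, add_mul, smul_add, h1, h2]
  | mem_mul m hm i a _ h =>
    obtain ⟨w, rfl⟩ := hm
    rw [← mul_assoc, eq_neg_of_add_eq_zero_left (ι_add_mul_swap v w), neg_mul, mul_assoc, h,
      pow_succ, mul_smul_comm, mul_assoc]
    simp

lemma gr_comm {M : Type} [AddCommGroup M] [Module K M] {p q : ℕ} {a b : ExteriorAlgebra K M}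
    (ha : a ∈ ⋀[K]^p M) (hb : b ∈ ⋀[K]^q M) : a * b = (-1 : K) ^ (p * q) • (b * a) := by
  induction ha using Submodule.pow_induction_on_left' with
  | algebraMap r => simp [Algebra.commutes]
  | add a c i _ _ h1 h2 => rw [mul_add, add_mul, smul_add, h1, h2]
  | mem_mul m hm i a _ h =>
    obtain ⟨w, rfl⟩ := hm
    rw [mul_assoc, h, mul_smul_comm, ← mul_assoc, ι_comm w hb, smul_mul_assoc, smul_smul,
      mul_assoc, ← pow_add, Nat.succ_mul]

lemma odd_comm {M : Type} [AddCommGroup M] [Module K M] {p : ℕ} (hp : Odd p)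
    {a b : ExteriorAlgebra K M} (ha : a ∈ ⋀[K]^p M) (hb : b ∈ ⋀[K]^p M) : a * b = -(b * a) := by
  rw [gr_comm ha hb, (hp.mul hp).neg_one_pow, neg_smul, one_smul]

lemma odd_sq [CharZero K] {M : Type} [AddCommGroup M] [Module K M] {p : ℕ} (hp : Odd p)
    {a : ExteriorAlgebra K M} (ha : a ∈ ⋀[K]^p M) : a * a = 0 := by
  have h := odd_comm hp ha ha
  have : (2 : K) • (a * a) = 0 := by rw [two_smul]; exact add_eq_zero_iff_eq_neg.2 h
  exact (smul_eq_zero.1 this).resolve_left two_ne_zero

/-- coordinate projection -/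
noncomputable def pr (K : Type) [Field K] (P : Finset (Fin n) → Prop) [DecidablePred P] :
    Module.End K (ExteriorAlgebra K (Fin n → K)) :=
  (x K n).constr K fun T => if P T then x K n T else 0

/-- multiplication by a monomial -/
noncomputable def m (K : Type) [Field K] (B : Finset (Fin n)) :
    Module.End K (ExteriorAlgebra K (Fin n → K)) := LinearMap.mulLeft K (x K n B)

/-- division by a monomial -/
noncomputable def dv (K : Type) [Field K] (B : Finset (Fin n)) :
    Module.End K (ExteriorAlgebra K (Fin n → K)) :=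
  (x K n).constr K fun T => if B ⊆ T then (ε B (T \ B) : K) • x K n (T \ B) else 0

lemma pr_x (P : Finset (Fin n) → Prop) [DecidablePred P] (T : Finset (Fin n)) :
    pr K P (x K n T) = if P T then x K n T else 0 := Module.Basis.constr_basis _ _ _ _

lemma m_x (B T : Finset (Fin n)) : m K B (x K n T) = (ε B T : K) • x K n (B ∪ T) := x_mul _ _

lemma dv_x (B T : Finset (Fin n)) :
    dv K B (x K n T) = if B ⊆ T then (ε B (T \ B) : K) • x K n (T \ B) else 0 :=
  Module.Basis.constr_basis _ _ _ _

lemma dv_m (B : Finset (Fin n)) : dv K B * m K B = pr K (Disjoint B) := by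
  refine (x K n).ext fun T => ?_
  rw [Module.End.mul_apply, m_x, map_smul, dv_x, pr_x, if_pos subset_union_left]
  split_ifs with h
  · rw [union_sdiff_cancel_left h, smul_smul, ε_sq h, one_smul]
  · simp [ε_zero h]

lemma m_dv (B : Finset (Fin n)) : m K B * dv K B = pr K (B ⊆ ·) := by
  refine (x K n).ext fun T => ?_
  rw [Module.End.mul_apply, dv_x, pr_x]
  split_ifs with h
  · rw [map_smul, m_x, smul_smul, ε_sq disjoint_sdiff, one_smul, union_sdiff_of_subset h]
  · simp

lemma dv_u (B : Finset (Fin n)) : dv K B * pr K (B ⊆ ·) = dv K B := by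
  refine (x K n).ext fun T => ?_
  rw [Module.End.mul_apply, pr_x]
  split_ifs with h
  · rfl
  · simp [dv_x, h]

lemma e_dv (B : Finset (Fin n)) : pr K (Disjoint B) * dv K B = dv K B := by
  refine (x K n).ext fun T => ?_
  rw [Module.End.mul_apply, dv_x]
  split_ifs with h
  · rw [map_smul, pr_x, if_pos disjoint_sdiff]
  · simp

lemma e_m {B C : Finset (Fin n)} (h : Disjoint B C) :
    pr K (Disjoint B) * m K C = m K C * pr K (Disjoint B) := by
  refine (x K n).ext fun T => ?_
  simp only [Module.End.mul_apply, m_x, map_smul, pr_x, disjoint_union_right, h, true_and]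
  split_ifs <;> simp [m_x]

lemma u_m {B C : Finset (Fin n)} (h : Disjoint B C) :
    pr K (B ⊆ ·) * m K C = m K C * pr K (B ⊆ ·) := by
  refine (x K n).ext fun T => ?_
  have : B ⊆ C ∪ T ↔ B ⊆ T := by
    refine ⟨fun a i hi => ?_, fun a => a.trans subset_union_right⟩
    exact (mem_union.1 (a hi)).resolve_left (disjoint_left.1 h hi)
  simp only [Module.End.mul_apply, m_x, map_smul, pr_x, this]
  split_ifs <;> simp [m_x]

lemma dv_comm {B C : Finset (Fin n)} (h : Disjoint B C) (s : K)
    (hs : x K n C * x K n B = s • (x K n B * x K n C)) :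
    dv K B * m K C = s • (m K C * dv K B) := by
  have e : m K C * m K B = s • (m K B * m K C) := by
    refine LinearMap.ext fun y => ?_
    simp only [m, Module.End.mul_apply, LinearMap.mulLeft_apply, LinearMap.smul_apply,
      ← mul_assoc, hs, smul_mul_assoc]
  calc dv K B * m K C = dv K B * (pr K (B ⊆ ·) * m K C) := by rw [← mul_assoc, dv_u]
    _ = dv K B * (m K C * m K B) * dv K B := by rw [u_m h, ← m_dv]; simp only [mul_assoc]
    _ = s • ((pr K (Disjoint B) * m K C) * dv K B) := by
      rw [e, ← dv_m]; simp only [mul_assoc, mul_smul_comm, smul_mul_assoc]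
    _ = _ := by rw [e_m h, mul_assoc, e_dv]

lemma special [CharZero K] {d k r : ℕ} (hd : Odd d) (hr : r < k) (B : Fin k → Finset (Fin n))
    (hc : ∀ i, (B i).card = d) (hB : ∀ i j, i ≠ j → Disjoint (B i) (B j))
    {g : ExteriorAlgebra K (Fin n → K)} (hg : g ∈ V K fun T => T.card = r)
    (h0 : (∑ i, x K n (B i)) * g = 0) :
    ∃ h ∈ V K fun T => T.card + d = r, (∑ i, x K n (B i)) * h = g := by
  set F := ∑ i, x K n (B i) with hF
  have xB : ∀ i, x K n (B i) ∈ ⋀[K]^d (Fin n → K) := fun i => by
    rw [pow_eq]; exact x_mem (hc i)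
  have FF : F * F = 0 := odd_sq hd (Submodule.sum_mem _ fun i _ => xB i)
  have hom : ∀ i y, dv K (B i) (F * y) + F * dv K (B i) y =
      pr K (Disjoint (B i)) y + pr K (B i ⊆ ·) y := by
    intro i y
    rw [hF, sum_mul, sum_mul, map_sum, ← sum_add_distrib, sum_eq_single i]
    · rw [← dv_m, ← m_dv]; rfl
    · intro j _ hj
      have := dv_comm (hB i j hj.symm) (-1 : K) (by
        rw [odd_comm hd (xB j) (xB i), neg_smul, one_smul])
      have := LinearMap.congr_fun this y
      simp only [m, Module.End.mul_apply, LinearMap.mulLeft_apply, LinearMap.smul_apply] at this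
      rw [this]; simp
    · simp
  have ind : ∀ s : Finset (Fin k), ∃ h ∈ V K fun T => T.card + d = r,
      g - F * h ∈ V K fun T => T.card = r ∧ ∀ i ∈ s, ¬ Disjoint (B i) T := by
    intro s
    induction s using Finset.induction_on with
    | empty => exact ⟨0, zero_mem _, by simpa using hg⟩
    | insert i s _ ih =>
      obtain ⟨h, h1, h2⟩ := ih
      have a : F * (g - F * h) = 0 := by rw [mul_sub, h0, ← mul_assoc, FF]; simp
      have b := hom i (g - F * h)
      rw [a, map_zero, zero_add] at b
      refine ⟨h + dv K (B i) (g - F * h), add_mem h1 (map_V _ (fun T hT => ?_) h2), ?_⟩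
      · rw [dv_x]
        split_ifs with c
        · refine Submodule.smul_mem _ _ (x_mem ?_)
          rw [← hc i, card_sdiff_add_card_eq_card c, hT.1]
        · exact zero_mem _
      · rw [mul_add, ← sub_sub, b]
        refine map_V (1 - (pr K (Disjoint (B i)) + pr K (B i ⊆ ·))) (fun T hT => ?_) h2
        simp only [LinearMap.sub_apply, LinearMap.add_apply, pr_x, Module.End.one_apply]
        by_cases c1 : Disjoint (B i) T
        · have c2 : ¬ B i ⊆ T := fun c2 => by
            have := hc i
            rw [(disjoint_self_iff_empty _).1 (c1.mono_right c2), card_empty] at this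
            rw [← this] at hd
            simp at hd
          simp [c1, c2]
        · by_cases c2 : B i ⊆ T
          · simp [c1, c2]
          · simp only [c1, c2, if_false, add_zero, sub_zero]
            exact x_mem ⟨hT.1, by simpa [c1] using hT.2⟩
  obtain ⟨h, h1, h2⟩ := ind univ
  refine ⟨h, h1, (sub_eq_zero.1 ?_).symm⟩
  refine (x K n).repr.injective (Finsupp.ext fun T => ?_)
  by_contra c
  obtain ⟨c1, c2⟩ := mem_V.1 h2 T (by simpa using c)
  choose a a1 a2 using fun i => not_disjoint_iff.1 (c2 i (mem_univ i))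
  have := card_le_card_of_injOn (s := univ) (t := T) a (fun i _ => a2 i) fun i _ j _ e => by
    by_contra ne
    exact disjoint_left.1 (hB i j ne) (a1 i) (e ▸ a1 j)
  simp at this
  omega

end Pool.Agent.H.MP_a0e599_al
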