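import Pool.Agent.H.MP_a0e599_al.A

namespace Pool.Agent.H.MP_a0e599_al

open ExteriorAlgebra Finset Matrix

section mat

variable {ι : Type} [Fintype ι] [DecidableEq ι]

/-- a Laplacian -/
def lap {R : Type} [CommRing R] (L D : Matrix ι ι R) : Matrix ι ι R :=
  (D * L) * (D * L)ᵀ + (L * D)ᵀ * (L * D) + (1 - D)ᵀ * (1 - D)

lemma lap_map {R S : Type} [CommRing R] [CommRing S] (φ : R →+* S) (L D : Matrix ι ι R) :
    (lap L D).map φ = lap (L.map φ) (D.map φ) := by
  have : ∀ A : Matrix ι ι R, A.map φ = φ.mapMatrix A := fun _ => rfl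
  have t : ∀ A : Matrix ι ι R, φ.mapMatrix Aᵀ = (φ.mapMatrix A)ᵀ := fun _ => rfl
  simp only [lap, this, map_add, map_mul, map_sub, map_one, t]

lemma lap_det {L D : Matrix ι ι ℚ} (h : ∀ v, D *ᵥ v = v → L *ᵥ v = 0 → ∃ y, v = (D * L) *ᵥ y) :
    (lap L D).det ≠ 0 := by
  rw [Ne, ← exists_mulVec_eq_zero_iff]
  rintro ⟨v, hv, h0⟩
  have sq : ∀ A : Matrix ι ι ℚ, v ⬝ᵥ (Aᵀ * A) *ᵥ v = (A *ᵥ v) ⬝ᵥ (A *ᵥ v) := fun A => by
    rw [← mulVec_mulVec, dotProduct_mulVec, vecMul_transpose]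
  have nn : ∀ w : ι → ℚ, 0 ≤ w ⬝ᵥ w := fun w => sum_nonneg fun i _ => mul_self_nonneg _
  have e : v ⬝ᵥ lap L D *ᵥ v = 0 := by rw [h0, dotProduct_zero]
  have s1 := sq (D * L)ᵀ
  rw [transpose_transpose] at s1
  rw [lap, add_mulVec, add_mulVec, dotProduct_add, dotProduct_add, s1, sq, sq] at e
  have a1 := nn ((D * L)ᵀ *ᵥ v)
  have a2 := nn ((L * D) *ᵥ v)
  have a3 := nn ((1 - D) *ᵥ v)
  have b1 := dotProduct_self_eq_zero.1 (show ((D * L)ᵀ *ᵥ v) ⬝ᵥ ((D * L)ᵀ *ᵥ v) = 0 by linarith)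
  have b2 := dotProduct_self_eq_zero.1 (show ((L * D) *ᵥ v) ⬝ᵥ ((L * D) *ᵥ v) = 0 by linarith)
  have b3 := dotProduct_self_eq_zero.1 (show ((1 - D) *ᵥ v) ⬝ᵥ ((1 - D) *ᵥ v) = 0 by linarith)
  rw [sub_mulVec, one_mulVec, sub_eq_zero] at b3
  rw [← mulVec_mulVec, ← b3] at b2
  obtain ⟨y, hy⟩ := h v b3.symm b2
  apply hv
  rw [← dotProduct_self_eq_zero]
  calc v ⬝ᵥ v = v ⬝ᵥ (D * L) *ᵥ y := by rw [← hy]
    _ = 0 := by rw [dotProduct_mulVec, ← mulVec_transpose, b1, zero_dotProduct]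

lemma lap_exact {K : Type} [Field K] {L D D' : Matrix ι ι K} (h1 : D * D = D) (h2 : Dᵀ = D)
    (h3 : D * L = L * D') (h4 : L * L = 0) (hd : (lap L D).det ≠ 0) {v : ι → K}
    (h5 : D *ᵥ v = v) (h6 : L *ᵥ v = 0) : ∃ y, v = L *ᵥ (D' *ᵥ y) := by
  have hu : IsUnit (lap L D) := (isUnit_iff_isUnit_det _).2 (Ne.isUnit hd)
  obtain ⟨u, hu'⟩ := (mulVec_surjective_iff_isUnit.2 hu) v
  have inj := mulVec_injective_iff_isUnit.2 hu
  have BA : (L * D) * (D * L) = 0 := by
    rw [Matrix.mul_assoc, ← Matrix.mul_assoc D, h1, h3, ← Matrix.mul_assoc, h4, Matrix.zero_mul]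
  have E : (1 - D)ᵀ * (1 - D) = 1 - D := by
    rw [transpose_sub, transpose_one, h2, Matrix.sub_mul, Matrix.one_mul, Matrix.mul_sub,
      Matrix.mul_one, h1, sub_self, sub_zero]
  have E1 : (1 - D) * D = 0 := by rw [Matrix.sub_mul, Matrix.one_mul, h1, sub_self]
  have E2 : D * (1 - D) = 0 := by rw [Matrix.mul_sub, Matrix.mul_one, h1, sub_self]
  have BT : (L * D)ᵀ = D * Lᵀ := by rw [transpose_mul, h2]
  have c1 : (1 - D) * lap L D = 1 - D := by
    rw [lap, E, BT, Matrix.mul_add, Matrix.mul_add, ← E]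
    simp only [← Matrix.mul_assoc, E, E1, Matrix.zero_mul, zero_add]
    nth_rewrite 1 [← transpose_one, ← h2]
    rw [← transpose_sub, E]
  have c2 : (L * D) * lap L D = (L * D) * ((L * D)ᵀ * (L * D)) := by
    rw [lap, E, Matrix.mul_add, Matrix.mul_add, ← Matrix.mul_assoc (L * D) (D * L), BA,
      Matrix.zero_mul, zero_add, Matrix.mul_assoc L D (1 - D), E2, Matrix.mul_zero, add_zero]
  have c3 : lap L D * ((L * D)ᵀ * (L * D)) = (L * D)ᵀ * ((L * D) * ((L * D)ᵀ * (L * D))) := by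
    have z1 : (D * L)ᵀ * (L * D)ᵀ = 0 := by rw [← transpose_mul, BA, transpose_zero]
    have z2 : (1 - D) * (L * D)ᵀ = 0 := by rw [BT, ← Matrix.mul_assoc, E1, Matrix.zero_mul]
    rw [lap, E, Matrix.add_mul, Matrix.add_mul, ← Matrix.mul_assoc (1 - D), z2, Matrix.zero_mul,
      add_zero, Matrix.mul_assoc (D * L), ← Matrix.mul_assoc (D * L)ᵀ, z1, Matrix.zero_mul,
      Matrix.mul_zero, zero_add, Matrix.mul_assoc]
  have d1 : (1 - D) *ᵥ u = 0 := by
    rw [← c1, ← mulVec_mulVec, hu', sub_mulVec, one_mulVec, h5, sub_self]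
  have d2 : ((L * D) * ((L * D)ᵀ * (L * D))) *ᵥ u = 0 := by
    rw [← c2, ← mulVec_mulVec, hu', ← mulVec_mulVec, h5, h6]
  have d3 : ((L * D)ᵀ * (L * D)) *ᵥ u = 0 := by
    apply inj
    rw [mulVec_mulVec, c3, ← mulVec_mulVec, d2, mulVec_zero, mulVec_zero]
  refine ⟨(D * L)ᵀ *ᵥ u, ?_⟩
  rw [← hu', lap, E, add_mulVec, add_mulVec, d1, d3, add_zero, add_zero, mulVec_mulVec,
    mulVec_mulVec, h3]

end mat

variable {n : ℕ}

/-- matrix of the multiplication by a form -/
noncomputable def LL {R : Type} [CommRing R] (d : ℕ) (c : Set.powersetCard (Fin n) d → R) :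
    Matrix (Finset (Fin n)) (Finset (Fin n)) R :=
  Matrix.of fun U T => ∑ S, c S * if S.1 ∪ T = U then (ε S.1 T : R) else 0

/-- diagonal projection -/
def DD (R : Type) [CommRing R] (P : Finset (Fin n) → Prop) [DecidablePred P] :
    Matrix (Finset (Fin n)) (Finset (Fin n)) R := diagonal fun T => if P T then 1 else 0

lemma LL_map {R S : Type} [CommRing R] [CommRing S] (φ : R →+* S) (d : ℕ)
    (c : Set.powersetCard (Fin n) d → R) : (LL d c).map φ = LL d fun S => φ (c S) := by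
  ext U T
  simp [LL, apply_ite φ]

lemma DD_map {R S : Type} [CommRing R] [CommRing S] (φ : R →+* S) (P : Finset (Fin n) → Prop)
    [DecidablePred P] : (DD R P).map φ = DD S P := by
  ext U T
  simp [DD, diagonal_apply, apply_ite φ]

lemma DD_LL {R : Type} [CommRing R] (d r : ℕ) (c : Set.powersetCard (Fin n) d → R) :
    DD R (fun T => T.card = r) * LL d c = LL d c * DD R fun T => T.card + d = r := by
  ext U T
  simp only [DD, diagonal_mul, mul_diagonal, LL, of_apply, mul_sum, sum_mul]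
  refine sum_congr rfl fun S _ => ?_
  by_cases h : S.1 ∪ T = U
  · by_cases h' : Disjoint S.1 T
    · have : U.card = T.card + d := by
        rw [← h, card_union_of_disjoint h', add_comm]
        exact congrArg _ S.2
      simp only [this]
      exact mul_comm _ _
    · simp [ε_zero h']
  · simp [h]

variable {K : Type} [Field K]

lemma LL_eq (d : ℕ) (c : Set.powersetCard (Fin n) d → K) :
    LL d c = LinearMap.toMatrix (x K n) (x K n)
      (LinearMap.mulLeft K (∑ S, c S • x K n S.1)) := by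
  ext U T
  simp only [LL, LinearMap.toMatrix_apply, sum_mul, x_mul, of_apply, LinearMap.mulLeft_apply,
    smul_mul_assoc, map_sum, map_smul, Module.Basis.repr_self, Finsupp.coe_finsetSum,
    Finset.sum_apply, Finsupp.smul_apply, Finsupp.single_apply, smul_eq_mul, mul_ite, mul_one,
    mul_zero]

lemma LL_vec (d : ℕ) (c : Set.powersetCard (Fin n) d → K) (g : ExteriorAlgebra K (Fin n → K)) :
    LL d c *ᵥ (x K n).repr g = (x K n).repr ((∑ S, c S • x K n S.1) * g) := by
  rw [LL_eq, LinearMap.toMatrix_mulVec_repr]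
  rfl

lemma DD_vec {P : Finset (Fin n) → Prop} [DecidablePred P] {g : ExteriorAlgebra K (Fin n → K)} :
    DD K P *ᵥ (x K n).repr g = (x K n).repr g ↔ g ∈ V K P := by
  rw [mem_V, funext_iff]
  refine forall_congr' fun T => ?_
  rw [DD, mulVec_diagonal]
  by_cases h : P T <;> simp [h, eq_comm]

lemma vec_surj (v : Finset (Fin n) → K) : ∃ g, v = (x K n).repr g :=
  ⟨(x K n).equivFun.symm v, by
    rw [← Module.Basis.equivFun_apply, LinearEquiv.apply_symm_apply]⟩

lemma det_ne {d r : ℕ} (hd : Odd d) (hn : d * (r + 1) ≤ n) :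
    (lap (LL d (MvPolynomial.X : Set.powersetCard (Fin n) d → MvPolynomial _ ℚ))
      (DD _ fun T => T.card = r)).det ≠ 0 := by
  classical
  let B : Fin (r + 1) → Finset (Fin n) := fun i =>
    univ.image fun j : Fin d => Fin.castLE (mul_comm d _ ▸ hn) (finProdFinEquiv (i, j))
  have hc : ∀ i, (B i).card = d := fun i => by
    rw [card_image_of_injective, card_univ, Fintype.card_fin]
    intro a b e
    simpa using finProdFinEquiv.injective (Fin.castLE_injective _ e)
  have hB : ∀ i j, i ≠ j → Disjoint (B i) (B j) := fun i j ne => by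
    rw [disjoint_left]
    intro a h1 h2
    obtain ⟨s, -, rfl⟩ := mem_image.1 h1
    obtain ⟨t, -, e⟩ := mem_image.1 h2
    exact ne (congrArg Prod.fst (finProdFinEquiv.injective (Fin.castLE_injective _ e))).symm
  let c : Set.powersetCard (Fin n) d → ℚ := fun S =>
    ∑ i, if S = Set.powersetCard.ofCard (hc i) then 1 else 0
  have hF : ∑ S, c S • x ℚ n S.1 = ∑ i, x ℚ n (B i) := by
    simp only [c, sum_smul]
    rw [sum_comm]
    simp
  intro h0
  have := congrArg (MvPolynomial.eval c) h0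
  rw [RingHom.map_det, RingHom.mapMatrix_apply, lap_map, LL_map, DD_map, map_zero] at this
  simp only [MvPolynomial.eval_X] at this
  refine lap_det (fun v h1 h2 => ?_) this
  obtain ⟨g, rfl⟩ := vec_surj v
  rw [LL_vec, hF] at h2
  obtain ⟨h, -, e⟩ := special hd (Nat.lt_succ_self r) B hc hB (DD_vec.1 h1)
    ((x ℚ n).repr.injective (Finsupp.ext fun T => by simpa using congrFun h2 T))
  exact ⟨(x ℚ n).repr h, by rw [← mulVec_mulVec, LL_vec, hF, e, h1]⟩

theorem generic [CharZero K] {d r : ℕ} (hd : Odd d) (hn : d * (r + 1) ≤ n)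
    {c : Set.powersetCard (Fin n) d → K} (hc : AlgebraicIndependent ℚ c)
    {g : ExteriorAlgebra K (Fin n → K)} (hg : g ∈ V K fun T => T.card = r)
    (h0 : (∑ S, c S • x K n S.1) * g = 0) :
    ∃ h ∈ V K fun T => T.card + d = r, (∑ S, c S • x K n S.1) * h = g := by
  have a : MvPolynomial.aeval c (lap (LL d (MvPolynomial.X : _ → MvPolynomial _ ℚ))
      (DD _ fun T => T.card = r)).det ≠ 0 := fun e =>
    det_ne hd hn (algebraicIndependent_iff.1 hc _ e)
  change (MvPolynomial.aeval c).toRingHom _ ≠ 0 at a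
  rw [RingHom.map_det, RingHom.mapMatrix_apply, lap_map, LL_map, DD_map] at a
  simp only [AlgHom.toRingHom_eq_coe, RingHom.coe_coe, MvPolynomial.aeval_X] at a
  have idem : ∀ (P : Finset (Fin n) → Prop) [DecidablePred P], DD K P * DD K P = DD K P := by
    intro P _
    rw [DD, diagonal_mul_diagonal]
    congr 1
    ext T
    split_ifs <;> simp
  obtain ⟨y, hy⟩ := lap_exact (v := (x K n).repr g) (idem _) (diagonal_transpose _) (DD_LL d r c)
    (by
      rw [LL_eq, ← LinearMap.toMatrix_mul, Module.End.mul_eq_comp, ← LinearMap.mulLeft_mul,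
        odd_sq hd (Submodule.sum_mem _ fun S _ => Submodule.smul_mem _ _ (by
          rw [pow_eq]; exact x_mem S.2))]
      simp) a (DD_vec.2 hg) (by rw [LL_vec, h0]; simp)
  obtain ⟨h, e⟩ := vec_surj (DD K (fun T => T.card + d = r) *ᵥ y)
  refine ⟨h, DD_vec.1 (by rw [← e, mulVec_mulVec, idem]), ?_⟩
  rw [e, LL_vec] at hy
  exact ((x K n).repr.injective (DFunLike.coe_injective hy)).symm

end Pool.Agent.H.MP_a0e599_al
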